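import Pool.Agent.helper36.MP.SpecZ

/-!
Module mp:FA of project mp (MP_af9036_an): the universal strip (Theorem A).
-/

set_option autoImplicit false

open Complex Metric Set Filter Topology MeasureTheory

noncomputable section

namespace MPS

open Pool.Agent.helper16.Multibrot

lemma FA_diff (n : ℕ) (U : Set ℂ) (z : ℂ → ℂ) (hz : DifferentiableOn ℂ z U) (j : ℕ) :
    DifferentiableOn ℂ (fun c' => (fc n c')^[j] (z c')) U := by
  induction j with
  | zero => simpa using hz
  | succ j ih =>
    have h1 : (fun c' => (fc n c')^[j + 1] (z c')) =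
        fun c' => ((fc n c')^[j] (z c')) ^ n + c' := by
      funext c'
      rw [Function.iterate_succ_apply']
      rfl
    rw [h1]
    exact (ih.pow n).add differentiableOn_id

theorem FA (hBIG : ZBIG_stmt) (hK1 : ZK1_stmt) (hCYC : ZCYC_stmt) (hTG : TG_stmt) (hZL : ZL_stmt)
    (hTHA : THA_stmt) : FA_stmt := by
  intro n hn d hd
  obtain ⟨ε₁, hε₁, hT⟩ := hTHA n d hn hd
  have hlog : 0 < Real.log (3 / 2) := Real.log_pos (by norm_num)
  refine ⟨min (min ε₁ (1 / 12)) (Real.log (3 / 2)), lt_min (lt_min hε₁ (by norm_num)) hlog, ?_⟩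
  intro k U z hk hU hz hper c hc h1 hSep
  have hfix : ∀ c ∈ U, (fc n c)^[k] (z c) = z c := by
    intro c hc
    have h2 := Function.iterate_minimalPeriod (f := fc n c) (x := z c)
    rwa [hper c hc] at h2
  rcases le_total 3 ‖c‖ with h3 | h3
  · -- large parameters
    have h4 := hBIG n k c (z c) hn hk h3 (hfix c hc)
    have h5 : Real.log (3 / 2) ≤ Real.log ‖mlt n k c (z c)‖ := by
      apply Real.log_le_log (by norm_num)
      refine le_trans ?_ h4
      exact le_self_pow₀ (by norm_num) hk.ne'
    have h6 : 0 ≤ ‖deriv (fun c' => mlt n k c' (z c')) c / mlt n k c (z c)‖ := norm_nonneg _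
    have h7 : min (min ε₁ (1 / 12)) (Real.log (3 / 2)) ≤ Real.log (3 / 2) := min_le_right _ _
    linarith
  by_cases hk1 : k = 1
  · subst hk1
    have h4 := hK1 n U z hn hU hz (fun c hc => by simpa using hfix c hc) c hc h3 h1
    refine le_trans ((min_le_left _ _).trans (min_le_right _ _)) h4
  · have hk2 : 2 ≤ k := by omega
    have : NeZero k := ⟨hk.ne'⟩
    set b : ℂ → ZMod k → ℂ := fun c' i => (fc n c')^[i.val] (z c') with hb
    have hall : ∀ c' ∈ U, Function.Injective (b c') ∧
        (∀ i, b c' i ^ n + c' = b c' (i + 1)) ∧ rho n (b c') = mlt n k c' (z c') ∧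
        (mlt n k c' (z c') ≠ 0 → IsCyc n c' (b c')) := by
      intro c' hc'
      obtain ⟨b', hb1, hb2, hb3, hb4, hb5, hb6⟩ := hCYC n k c' (z c') hn (hper c' hc')
      have hbb : b' = b c' := by
        funext i
        have h4 := hb4 i.val
        rw [ZMod.natCast_zmod_val] at h4
        exact h4
      rw [← hbb]
      exact ⟨hb1, hb2, hb5, hb6⟩
    obtain ⟨_, _, hrho, hcyc'⟩ := hall c hc
    have hm0 : mlt n k c (z c) ≠ 0 := by
      intro h4
      rw [h4, norm_zero] at h1
      linarith
    have hcyc : IsCyc n c (b c) := hcyc' hm0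
    have hρ1 : rho n (b c) ≠ 1 := by
      intro h4
      rw [← hrho, h4, norm_one] at h1
      exact lt_irrefl _ h1
    obtain ⟨g, hg, -⟩ := hTG n k c (b c) hn hcyc hρ1
    have hder := hZL n k U b c g hn hU hc (fun i => FA_diff n U z hz i.val)
      (fun c' hc' => (hall c' hc').2.1) hcyc.ne0 hg
    have hev : (fun c' => rho n (b c')) =ᶠ[𝓝 c] fun c' => mlt n k c' (z c') := by
      filter_upwards [hU.mem_nhds hc] with c' hc'
      exact (hall c' hc').2.2.1
    rw [hev.deriv_eq, hrho] at hder
    have h4 := hT k c (b c) g hk2 h3 hcyc (by rw [hrho]; exact h1)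
      (by rw [hrho]; exact hSep) hg
    rw [hrho] at h4
    rw [hder]
    exact ((min_le_left _ _).trans (min_le_left _ _)).trans h4

end MPS
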