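import Pool.Agent.helper36.MP.SpecP

/-!
Module mp:PHI of project mp (MP_af9036_an): the change of coordinate.
-/

set_option autoImplicit false

open Complex Metric Set Filter Topology MeasureTheory

noncomputable section

namespace MPS

lemma PHI_texp (t : ℝ) (ht : 0 < t) : 4 * Real.exp (1 - t) ≤ 7 / t ^ 2 := by
  rw [le_div_iff₀ (by positivity)]
  have h1 : t / 2 ≤ Real.exp (t / 2 - 1) := by
    have := Real.add_one_le_exp (t / 2 - 1)
    linarith
  have h2 : (t / 2) ^ 2 ≤ Real.exp (t / 2 - 1) ^ 2 :=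
    pow_le_pow_left₀ (by positivity) h1 2
  have h3 : Real.exp (t / 2 - 1) ^ 2 = Real.exp (t - 2) := by
    rw [← Real.exp_nat_mul]
    congr 1
    push_cast
    ring
  rw [h3] at h2
  have h4 : Real.exp (1 - t) * Real.exp (t - 2) = Real.exp (-1) := by
    rw [← Real.exp_add]
    congr 1
    ring
  have h5 : Real.exp (-1) * Real.exp 1 = 1 := by
    rw [← Real.exp_add]
    simp
  have h6 := Real.exp_one_gt_d9
  have h7 : 0 < Real.exp (-1) := Real.exp_pos _
  have h8 : 16 * Real.exp (-1) ≤ 7 := by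
    nlinarith
  have h9 : 0 < Real.exp (1 - t) := Real.exp_pos _
  calc 4 * Real.exp (1 - t) * t ^ 2 = 16 * (Real.exp (1 - t) * (t / 2) ^ 2) := by ring
    _ ≤ 16 * (Real.exp (1 - t) * Real.exp (t - 2)) := by gcongr
    _ = 16 * Real.exp (-1) := by rw [h4]
    _ ≤ 7 := h8

/-- the principal square root near `1`. -/
lemma PHI_sqrt (z : ℂ) (hz : ‖z - 1‖ ≤ 1 / 4) :
    z ∈ slitPlane ∧ Complex.exp (Complex.log z / 2) ^ 2 = z ∧
      ‖Complex.exp (Complex.log z / 2) - 1‖ ≤ 4 / 7 * ‖z - 1‖ := by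
  have hre : |(z - 1).re| ≤ 1 / 4 := (Complex.abs_re_le_norm _).trans hz
  have hre2 : 3 / 4 ≤ z.re := by
    have := (abs_le.mp hre).1
    simp only [Complex.sub_re, Complex.one_re] at this
    linarith
  have hsl : z ∈ slitPlane := by
    rw [Complex.mem_slitPlane_iff]
    left
    linarith
  have hz0 : z ≠ 0 := Complex.slitPlane_ne_zero hsl
  have hsq : Complex.exp (Complex.log z / 2) ^ 2 = z := by
    rw [← Complex.exp_nat_mul]
    have : ((2 : ℕ) : ℂ) * (Complex.log z / 2) = Complex.log z := by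
      push_cast
      ring
    rw [this, Complex.exp_log hz0]
  refine ⟨hsl, hsq, ?_⟩
  set σ := Complex.exp (Complex.log z / 2) with hσ
  have hσre : 0 ≤ σ.re := by
    rw [hσ, Complex.exp_re]
    have him : (Complex.log z / 2).im = Complex.arg z / 2 := by
      rw [show Complex.log z / 2 = Complex.log z * ((1 / 2 : ℝ) : ℂ) by push_cast; ring,
        Complex.im_mul_ofReal, Complex.log_im]
      ring
    rw [him]
    refine mul_nonneg (Real.exp_pos _).le (Real.cos_nonneg_of_neg_pi_div_two_le_of_le ?_ ?_)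
    · have := Complex.neg_pi_lt_arg z
      linarith
    · have := Complex.arg_le_pi z
      linarith
  have hprod : ‖σ - 1‖ * ‖σ + 1‖ = ‖z - 1‖ := by
    rw [← norm_mul]
    congr 1
    rw [← hsq]
    ring
  have h1 : 1 ≤ ‖σ + 1‖ := by
    have := Complex.re_le_norm (σ + 1)
    simp only [Complex.add_re, Complex.one_re] at this
    linarith
  have h2 : ‖σ - 1‖ ≤ 1 / 4 := by
    have h3 : ‖σ - 1‖ * 1 ≤ ‖σ - 1‖ * ‖σ + 1‖ := by gcongr
    linarith
  have h3 : 7 / 4 ≤ ‖σ + 1‖ := by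
    have h4 : ‖(2 : ℂ)‖ ≤ ‖σ + 1‖ + ‖σ - 1‖ := by
      have := norm_sub_le (σ + 1) (σ - 1)
      rwa [show σ + 1 - (σ - 1) = 2 by ring] at this
    have h5 : ‖(2 : ℂ)‖ = 2 := by simp
    linarith
  have h6 : ‖σ - 1‖ * (7 / 4) ≤ ‖σ - 1‖ * ‖σ + 1‖ := by gcongr
  linarith

lemma PHI_core (H : ℂ → ℂ) (a ε δ : ℝ) (hε : 0 < ε) (hδ : 0 < δ) (hδ1 : δ ≤ 1 / 20)
    (hεδ : ε ≤ δ ^ 2 / 1024) (hH : DifferentiableOn ℂ H (ball 0 (Real.exp (-a))))
    (hH0 : H 0 = 1)
    (hb1 : ∀ (w : ℂ) (t : ℝ), 0 < t → t ≤ 1 → w.re = -(a + t) →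
      ‖H (Complex.exp w) - 1‖ ≤ 4 * ε / t ^ 2)
    (hb2 : ∀ (w : ℂ) (t : ℝ), 1 ≤ t → w.re = -(a + t) →
      ‖H (Complex.exp w) - 1‖ ≤ 4 * ε * Real.exp (1 - t)) :
    ∃ P : ℂ → ℂ, DifferentiableOn ℂ P (ball 0 (Real.exp (-(a + δ / 8)))) ∧
    P 0 = 0 ∧ (∀ u ∈ ball (0 : ℂ) (Real.exp (-(a + δ / 8))), ‖P u‖ ≤ δ / 32 ∧
      ‖u * deriv P u‖ ≤ 1 / 4) ∧
    ∀ w : ℂ, w.re < -(a + δ / 8) →
      (1 + Complex.exp w * deriv P (Complex.exp w)) ^ 2 = H (Complex.exp w) := by
  set r₁ : ℝ := Real.exp (-(a + δ / 8)) with hr₁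
  have hr₁0 : 0 < r₁ := Real.exp_pos _
  have hsub : ball (0 : ℂ) r₁ ⊆ ball 0 (Real.exp (-a)) := by
    apply ball_subset_ball
    rw [hr₁]
    apply Real.exp_le_exp.mpr
    linarith
  -- claim A
  have hA : ∀ u ∈ ball (0 : ℂ) r₁, u ≠ 0 → δ / 8 < -Real.log ‖u‖ - a ∧
      ‖H u - 1‖ ≤ 7 * ε / (-Real.log ‖u‖ - a) ^ 2 ∧ ‖H u - 1‖ ≤ 1 / 4 := by
    intro u hu hu0
    have hun : 0 < ‖u‖ := norm_pos_iff.mpr hu0
    have hlt : Real.log ‖u‖ < -(a + δ / 8) := by
      rw [mem_ball_zero_iff] at hu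
      rw [← Real.log_exp (-(a + δ / 8))]
      exact Real.log_lt_log hun hu
    set t := -Real.log ‖u‖ - a with ht
    have ht1 : δ / 8 < t := by rw [ht]; linarith
    have ht0 : 0 < t := by linarith
    have hw : (Complex.log u).re = -(a + t) := by
      rw [Complex.log_re, ht]
      ring
    have hexp : Complex.exp (Complex.log u) = u := Complex.exp_log hu0
    refine ⟨ht1, ?_⟩
    have ht2 : (δ / 8) ^ 2 ≤ t ^ 2 := pow_le_pow_left₀ (by positivity) ht1.le 2
    rcases le_total t 1 with h1 | h1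
    · have h2 := hb1 (Complex.log u) t ht0 h1 hw
      rw [hexp] at h2
      refine ⟨h2.trans ?_, h2.trans ?_⟩
      · gcongr
        norm_num
      · rw [div_le_iff₀ (by positivity)]
        nlinarith
    · have h2 := hb2 (Complex.log u) t h1 hw
      rw [hexp] at h2
      refine ⟨h2.trans ?_, h2.trans ?_⟩
      · have h3 := PHI_texp t ht0
        calc 4 * ε * Real.exp (1 - t) = ε * (4 * Real.exp (1 - t)) := by ring
          _ ≤ ε * (7 / t ^ 2) := by gcongr
          _ = 7 * ε / t ^ 2 := by ring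
      · have h3 : Real.exp (1 - t) ≤ 1 := Real.exp_le_one_iff.mpr (by linarith)
        have h4 : 4 * ε * Real.exp (1 - t) ≤ 4 * ε * 1 := by gcongr
        nlinarith
  have hA' : ∀ u ∈ ball (0 : ℂ) r₁, ‖H u - 1‖ ≤ 1 / 4 := by
    intro u hu
    by_cases hu0 : u = 0
    · rw [hu0, hH0]
      simp
    · exact (hA u hu hu0).2.2
  -- claim B
  set σ : ℂ → ℂ := fun u => Complex.exp (Complex.log (H u) / 2) with hσ
  have hσd : DifferentiableOn ℂ σ (ball 0 r₁) := by
    intro u hu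
    have h1 := (hH.mono hsub) u hu
    have h2 := (PHI_sqrt (H u) (hA' u hu)).1
    exact ((h1.clog h2).div_const 2).cexp
  have hσsq : ∀ u ∈ ball (0 : ℂ) r₁, σ u ^ 2 = H u := fun u hu =>
    (PHI_sqrt (H u) (hA' u hu)).2.1
  have hσ0 : σ 0 = 1 := by
    simp only [hσ, hH0, Complex.log_one, zero_div, Complex.exp_zero]
  have hσ1 : ∀ u ∈ ball (0 : ℂ) r₁, ‖σ u - 1‖ ≤ 1 / 4 := by
    intro u hu
    have h1 := (PHI_sqrt (H u) (hA' u hu)).2.2
    have h2 := hA' u hu
    have h3 : ‖σ u - 1‖ ≤ 4 / 7 * ‖H u - 1‖ := h1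
    linarith
  have hσ2 : ∀ u ∈ ball (0 : ℂ) r₁, u ≠ 0 →
      ‖σ u - 1‖ ≤ 4 * ε / (-Real.log ‖u‖ - a) ^ 2 := by
    intro u hu hu0
    have h1 : ‖σ u - 1‖ ≤ 4 / 7 * ‖H u - 1‖ := (PHI_sqrt (H u) (hA' u hu)).2.2
    have h2 := (hA u hu hu0).2.1
    calc ‖σ u - 1‖ ≤ 4 / 7 * ‖H u - 1‖ := h1
      _ ≤ 4 / 7 * (7 * ε / (-Real.log ‖u‖ - a) ^ 2) := by gcongr
      _ = 4 * ε / (-Real.log ‖u‖ - a) ^ 2 := by ring
  -- claim C
  have hds : DifferentiableOn ℂ (dslope σ 0) (ball 0 r₁) :=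
    (Complex.differentiableOn_dslope (ball_mem_nhds 0 hr₁0)).mpr hσd
  obtain ⟨g, hg⟩ := hds.isExactOn_ball
  set P : ℂ → ℂ := fun u => g u - g 0 with hP
  have hPd : ∀ u ∈ ball (0 : ℂ) r₁, HasDerivAt P (dslope σ 0 u) u := by
    intro u hu
    exact (hg u hu).sub_const (g 0)
  have hP0 : P 0 = 0 := by simp [hP]
  have hPu : ∀ u ∈ ball (0 : ℂ) r₁, u * dslope σ 0 u = σ u - 1 := by
    intro u hu
    have := sub_smul_dslope σ 0 u
    rw [hσ0, sub_zero, smul_eq_mul] at this
    exact this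
  refine ⟨P, fun u hu => (hPd u hu).differentiableAt.differentiableWithinAt, hP0, ?_, ?_⟩
  · intro u hu
    refine ⟨?_, ?_⟩
    swap
    · rw [(hPd u hu).deriv, hPu u hu]
      exact hσ1 u hu
    · by_cases hu0 : u = 0
      · rw [hu0, hP0, norm_zero]
        positivity
      have hun : 0 < ‖u‖ := norm_pos_iff.mpr hu0
      set t₀ := -Real.log ‖u‖ - a with ht₀
      have ht1 : δ / 8 < t₀ := (hA u hu hu0).1
      have ht00 : 0 < t₀ := by linarith
      -- the path
      set v : ℝ → ℂ := fun t => u * Complex.exp (((t₀ - t : ℝ) : ℂ)) with hv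
      have hvn : ∀ t, ‖v t‖ = ‖u‖ * Real.exp (t₀ - t) := by
        intro t
        simp only [hv, norm_mul, Complex.norm_exp, Complex.ofReal_re]
      have hv0 : ∀ t, v t ≠ 0 := fun t => mul_ne_zero hu0 (Complex.exp_ne_zero _)
      have hvb : ∀ t, t₀ ≤ t → v t ∈ ball (0 : ℂ) r₁ := by
        intro t ht
        rw [mem_ball_zero_iff, hvn]
        rw [mem_ball_zero_iff] at hu
        have h3 : Real.exp (t₀ - t) ≤ 1 := by
          rw [← Real.exp_zero]
          apply Real.exp_le_exp.mpr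
          linarith
        calc ‖u‖ * Real.exp (t₀ - t) ≤ ‖u‖ * 1 := by gcongr
          _ < r₁ := by rw [mul_one]; exact hu
      have hvl : ∀ t, -Real.log ‖v t‖ - a = t := by
        intro t
        rw [hvn, Real.log_mul hun.ne' (Real.exp_pos _).ne', Real.log_exp, ht₀]
        ring
      have hvd : ∀ t, HasDerivAt v (-(v t)) t := by
        intro t
        have h1 : HasDerivAt (fun t : ℝ => ((t₀ - t : ℝ) : ℂ)) ((-1 : ℝ) : ℂ) t := by
          have h2 : HasDerivAt (fun t : ℝ => t₀ - t) (-1) t := by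
            simpa using (hasDerivAt_id t).const_sub t₀
          exact h2.ofReal_comp
        have h3 := (h1.cexp).const_mul u
        refine h3.congr_deriv ?_
        simp only [hv]
        push_cast
        ring
      have hfd : ∀ t, t₀ ≤ t → HasDerivAt (fun t => P (v t) - P u)
          (-(σ (v t) - 1)) t := by
        intro t ht
        have h1 : HasDerivAt (fun t => P (v t)) (-(v t) • dslope σ 0 (v t)) t :=
          (hPd (v t) (hvb t ht)).scomp t (hvd t)
        refine (h1.sub_const (P u)).congr_deriv ?_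
        rw [smul_eq_mul, neg_mul, hPu (v t) (hvb t ht)]
      have hbd : ∀ T, t₀ ≤ T → ‖P (v T) - P u‖ ≤ 4 * ε / t₀ := by
        intro T hT
        have hv00 : v t₀ = u := by simp [hv]
        have key := image_norm_le_of_norm_deriv_right_le_deriv_boundary'
          (f := fun t => P (v t) - P u) (f' := fun t => -(σ (v t) - 1)) (a := t₀) (b := T)
          (B := fun t => 4 * ε / t₀ - 4 * ε / t) (B' := fun t => 4 * ε / t ^ 2)
          (fun t ht => (hfd t ht.1).continuousAt.continuousWithinAt)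
          (fun t ht => (hfd t ht.1).hasDerivWithinAt)
          (by simp [hv00])
          (by
            intro t ht
            have ht' : t ≠ 0 := (lt_of_lt_of_le ht00 ht.1).ne'
            exact (continuousAt_const.sub (continuousAt_const.div continuousAt_id ht')).continuousWithinAt)
          (by
            intro t ht
            have ht' : t ≠ 0 := (lt_of_lt_of_le ht00 ht.1).ne'
            have h1 : HasDerivAt (fun t : ℝ => 4 * ε / t₀ - 4 * ε * t⁻¹)
                (-(4 * ε * (-(t ^ 2)⁻¹))) t := by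
              exact ((hasDerivAt_inv ht').const_mul (4 * ε)).const_sub (4 * ε / t₀)
            have h2 : HasDerivAt (fun t : ℝ => 4 * ε / t₀ - 4 * ε / t) (4 * ε / t ^ 2) t := by
              refine (h1.congr_deriv ?_)
              field_simp
            exact h2.hasDerivWithinAt)
          (by
            intro t ht
            rw [norm_neg]
            have h1 := hσ2 (v t) (hvb t ht.1) (hv0 t)
            rw [hvl t] at h1
            exact h1)
          (x := T) ⟨hT, le_refl T⟩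
        refine key.trans ?_
        have h2 : 0 ≤ 4 * ε / T := by
          have : 0 < T := by linarith
          positivity
        show 4 * ε / t₀ - 4 * ε / T ≤ 4 * ε / t₀
        linarith
      have hlim : Tendsto (fun T => ‖P (v T) - P u‖) atTop (𝓝 ‖P 0 - P u‖) := by
        have h1 : Tendsto v atTop (𝓝 0) := by
          rw [tendsto_zero_iff_norm_tendsto_zero]
          simp only [hvn]
          have h2 : Tendsto (fun t : ℝ => Real.exp (t₀ - t)) atTop (𝓝 0) :=
            Real.tendsto_exp_atBot.comp (tendsto_atBot_add_const_left _ t₀ tendsto_neg_atTop_atBot)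
          simpa using h2.const_mul ‖u‖
        have h3 : ContinuousAt P 0 := (hPd 0 (mem_ball_self hr₁0)).continuousAt
        have h4 : Tendsto (fun T => P (v T)) atTop (𝓝 (P 0)) := h3.tendsto.comp h1
        exact (h4.sub_const (P u)).norm
      have hfin : ‖P 0 - P u‖ ≤ 4 * ε / t₀ :=
        le_of_tendsto hlim (eventually_atTop.mpr ⟨t₀, hbd⟩)
      rw [hP0, zero_sub, norm_neg] at hfin
      refine hfin.trans ?_
      rw [div_le_iff₀ ht00]
      nlinarith
  · intro w hw
    have hu : Complex.exp w ∈ ball (0 : ℂ) r₁ := by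
      rw [mem_ball_zero_iff, Complex.norm_exp]
      exact Real.exp_lt_exp.mpr hw
    rw [(hPd _ hu).deriv, hPu _ hu]
    rw [show 1 + (σ (Complex.exp w) - 1) = σ (Complex.exp w) by ring]
    exact hσsq _ hu

theorem PHI (hU : P1U_stmt) (hT : PT1_stmt) : PHI_stmt := by
  intro n k _ c b g ψ R ε δ A G Q hH hQ hε
  obtain ⟨H, hHd, hH0, hHt⟩ := (hU n k c b g ψ R ε δ A G Q hH).2.2.1 Q le_rfl
  have hpt := hT n k c b g ψ R ε δ A G Q hH Q hQ le_rfl
  have hε0 : 0 < ε := by
    have h1 := hH.su.hE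
    have h2 := hH.su.rho1
    have h3 : 0 < Real.log ‖rho n b‖ := Real.log_pos h2
    have h4 : 0 ≤ ∫ z in ball (0 : ℂ) R, ‖er n c b g z‖ :=
      integral_nonneg (fun z => norm_nonneg _)
    have h5 := Real.pi_pos
    have h6 : 0 < 2 * Real.pi * Real.log ‖rho n b‖ := by positivity
    linarith
  have hHP : ∀ (w : ℂ) (t : ℝ), 0 < t → w.re = -(A Q + t) → w ∈ HP (A Q) := by
    intro w t ht hw
    show w.re < -A Q
    rw [hw]
    linarith
  obtain ⟨P, hP1, hP2, hP3, hP4⟩ := PHI_core H (A Q) ε δ hε0 hH.d0 hH.d1 hε hHd hH0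
    (by
      intro w t ht0 ht1 hw
      rw [← hHt w (hHP w t ht0 hw)]
      exact (hpt w t ht0 hw).2.2.trans ((hpt w t ht0 hw).1 ht1))
    (by
      intro w t ht1 hw
      have ht0 : 0 < t := by linarith
      rw [← hHt w (hHP w t ht0 hw)]
      exact (hpt w t ht0 hw).2.2.trans ((hpt w t ht0 hw).2.1 ht1))
  refine ⟨P, hP1, hP2, hP3, ?_⟩
  intro w hw
  have hw' : w ∈ HP (A Q) := by
    show w.re < -A Q
    have h1 : w.re < -(A Q + δ / 8) := hw
    have h2 := hH.d0
    linarith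
  rw [hHt w hw']
  exact hP4 w hw

end MPS
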